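import Pool.Agent.Lib.MP_28303a_al.NK.Univ
import Pool.Agent.Lib.MP_28303a_al.NK.Iface2

/-! # `K_{-1}(R[F]) = 0` for regular `R` and a free group `F` of countable rank -/

set_option autoImplicit false

namespace Pool.Agent.NegK.H64

open Pool.Agent.NegK

universe u v w

/-- The retraction of the free group of countable rank to the first `k` generators. -/
def rho (k : ℕ) : FreeGroup ℕ →* FreeGroup (Fin k) :=
  FreeGroup.lift fun n => if h : n < k then FreeGroup.of ⟨n, h⟩ else 1

/-- The inclusion of the free group on the first `k` generators. -/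
def iota (k : ℕ) : FreeGroup (Fin k) →* FreeGroup ℕ := FreeGroup.map Fin.val

theorem iota_rho_of (k n : ℕ) (h : n < k) : iota k (rho k (FreeGroup.of n)) = FreeGroup.of n := by
  unfold iota rho
  rw [FreeGroup.lift_apply_of, dif_pos h, FreeGroup.map.of]

theorem iota_rho (w : FreeGroup ℕ) : ∃ k₀, ∀ k, k₀ ≤ k → iota k (rho k w) = w := by
  induction w using FreeGroup.induction_on with
  | C1 => exact ⟨0, fun k _ => by rw [map_one, map_one]⟩
  | of n => exact ⟨n + 1, fun k hk => iota_rho_of k n hk⟩
  | inv_of n h =>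
    obtain ⟨k₀, h⟩ := h
    exact ⟨k₀, fun k hk => by rw [map_inv, map_inv, h k hk]⟩
  | mul x y hx hy =>
    obtain ⟨k₁, h1⟩ := hx
    obtain ⟨k₂, h2⟩ := hy
    exact ⟨max k₁ k₂, fun k hk => by
      rw [map_mul, map_mul, h1 k (le_trans (le_max_left _ _) hk),
        h2 k (le_trans (le_max_right _ _) hk)]⟩

theorem iota_rho_finset (S : Finset (FreeGroup ℕ)) : ∃ k, ∀ w ∈ S, iota k (rho k w) = w := by
  choose f hf using iota_rho
  exact ⟨S.sup f, fun w hw => hf w _ (Finset.le_sup hw)⟩

/-- Every idempotent matrix over `R[F][t, t⁻¹]`, `F` free of countable rank, comes from a free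
group of finite rank. -/
theorem lift_free {R : Type u} [Ring R]
    (p : Idem (LaurentPolynomial (MonoidAlgebra R (FreeGroup ℕ)))) :
    ∃ (k : ℕ) (p₀ : Idem (LaurentPolynomial (MonoidAlgebra R (FreeGroup (Fin k))))),
      p₀.map (lmap (MonoidAlgebra.mapDomainRingHom R (iota k))) = p := by
  classical
  let q : Idem (MonoidAlgebra R (Multiplicative ℤ × FreeGroup ℕ)) :=
    p.map (laurentEquiv R (FreeGroup ℕ) : _ →+* _)
  let S : Finset (FreeGroup ℕ) := Finset.univ.biUnion fun ij : Fin q.n × Fin q.n =>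
    (q.e ij.1 ij.2).coeff.support.image Prod.snd
  obtain ⟨k, hk⟩ := iota_rho_finset S
  refine ⟨k, p.map (lmap (MonoidAlgebra.mapDomainRingHom R (rho k))), ?_⟩
  refine Idem.ext' rfl fun i j => ?_
  apply (laurentEquiv R (FreeGroup ℕ)).injective
  show laurentEquiv R (FreeGroup ℕ) (AddMonoidAlgebra.mapRingHom ℤ
    (MonoidAlgebra.mapDomainRingHom R (iota k)) (AddMonoidAlgebra.mapRingHom ℤ
    (MonoidAlgebra.mapDomainRingHom R (rho k)) (p.e i j))) = q.e i j
  rw [laurentEquiv_natural, laurentEquiv_natural]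
  show MonoidAlgebra.mapDomain (MonoidHom.prodMap (MonoidHom.id (Multiplicative ℤ)) (iota k))
    (MonoidAlgebra.mapDomain (MonoidHom.prodMap (MonoidHom.id (Multiplicative ℤ)) (rho k))
      (q.e i j)) = q.e i j
  refine mapDomain_eq_self _ _ {x | x.2 ∈ S} ?_ _ ?_
  · intro a ha
    exact Prod.ext rfl (hk _ ha)
  · intro x hx
    refine Finset.mem_biUnion.2 ⟨(i, j), Finset.mem_univ _, ?_⟩
    exact Finset.mem_image.2 ⟨x, hx, rfl⟩

/-- `R[t, t⁻¹][F] ≃ R[F][t, t⁻¹]`. -/
noncomputable def swapEquiv (R : Type u) [Ring R] (F : Type v) [Group F] :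
    MonoidAlgebra (LaurentPolynomial R) F ≃+* LaurentPolynomial (MonoidAlgebra R F) :=
  ((MonoidAlgebra.mapRingEquiv F (AddMonoidAlgebra.toMultiplicative R ℤ)).trans
    (MonoidAlgebra.commRingEquiv (R := R) (M := Multiplicative ℤ) (N := F))).trans
    (AddMonoidAlgebra.toMultiplicative (MonoidAlgebra R F) ℤ).symm

theorem swapEquiv_single (R : Type u) [Ring R] (F : Type v) [Group F] (r : R) :
    swapEquiv R F (MonoidAlgebra.single 1 (LaurentPolynomial.C r)) =
      LaurentPolynomial.C (MonoidAlgebra.single 1 r) := by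
  show (AddMonoidAlgebra.toMultiplicative (MonoidAlgebra R F) ℤ).symm
    (MonoidAlgebra.commRingEquiv (R := R) (M := Multiplicative ℤ) (N := F)
      (MonoidAlgebra.mapRingEquiv F (AddMonoidAlgebra.toMultiplicative R ℤ)
        (MonoidAlgebra.single 1 (AddMonoidAlgebra.single 0 r)))) = _
  rw [MonoidAlgebra.mapRingEquiv_single, AddMonoidAlgebra.toMultiplicative_single,
    MonoidAlgebra.commRingEquiv_single_single, RingEquiv.symm_apply_eq]
  exact (AddMonoidAlgebra.toMultiplicative_single _ _).symm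

/-- The homomorphism `K₀` of a composite is surjective if both parts are. -/
theorem K0.surj_comp {A B C : Type u} [Ring A] [Ring B] [Ring C] (g : B →+* C) (f : A →+* B)
    (hg : Function.Surjective (K0.map g)) (hf : Function.Surjective (K0.map f)) :
    Function.Surjective (K0.map (g.comp f)) := by
  have h1 : K0.map (g.comp f) = (K0.map g).comp (K0.map f) := K0Fun.hom_comp g f
  rw [h1]
  exact hg.comp hf

theorem K0.surj_equiv {A B : Type u} [Ring A] [Ring B] (e : A ≃+* B) :
    Function.Surjective (K0.map (e : A →+* B)) := by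
  intro z
  refine ⟨K0.map (e.symm : B →+* A) z, ?_⟩
  have h1 : (K0.map (e : A →+* B)).comp (K0.map (e.symm : B →+* A)) = AddMonoidHom.id _ := by
    have h2 := K0Fun.hom_comp (e : A →+* B) (e.symm : B →+* A)
    have h3 : (e : A →+* B).comp (e.symm : B →+* A) = RingHom.id B := by
      ext x
      simp
    rw [h3, K0Fun.hom_id] at h2
    exact h2.symm
  exact DFunLike.congr_fun h1 z

/-- `R[F₁] ≃ R[t, t⁻¹]`. -/
noncomputable def oneEquiv (R : Type u) [Ring R] :
    MonoidAlgebra R (FreeGroup (Fin 1)) ≃+* LaurentPolynomial R :=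
  (MonoidAlgebra.mapDomainRingEquiv R
    (FreeGroup.mulEquivIntOfUnique : FreeGroup (Fin 1) ≃* Multiplicative ℤ)).trans
    (AddMonoidAlgebra.toMultiplicative R ℤ).symm

theorem oneEquiv_single (R : Type u) [Ring R] (r : R) :
    oneEquiv R (MonoidAlgebra.single 1 r) = LaurentPolynomial.C r := by
  show (AddMonoidAlgebra.toMultiplicative R ℤ).symm
    (MonoidAlgebra.mapDomainRingEquiv R
      (FreeGroup.mulEquivIntOfUnique : FreeGroup (Fin 1) ≃* Multiplicative ℤ)
      (MonoidAlgebra.single 1 r)) = _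
  rw [MonoidAlgebra.mapDomainRingEquiv_single, RingEquiv.symm_apply_eq, map_one]
  exact (AddMonoidAlgebra.toMultiplicative_single _ _).symm

/-- For a regular ring, `K₀(R) → K₀(R[t, t⁻¹])` is surjective. -/
theorem surj_laurent (hF : FreeStatement.{u}) (R : Type u) [Ring R] (hR : RegularRing R) :
    Function.Surjective (K0.map (LaurentPolynomial.C : R →+* LaurentPolynomial R)) := by
  have h1 : (LaurentPolynomial.C : R →+* LaurentPolynomial R) =
      (oneEquiv R : _ →+* _).comp (MonoidAlgebra.singleOneRingHom :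
        R →+* MonoidAlgebra R (FreeGroup (Fin 1))) := by
    ext1 r
    exact (oneEquiv_single R r).symm
  rw [h1]
  exact K0.surj_comp _ _ (K0.surj_equiv _) (hF R hR 1)

/-- `K_{-1}(R[F]) = 0` for regular `R` and a free group of finite rank. -/
theorem kfree_fin (hL : LregStatement.{u}) (hF : FreeStatement.{u}) (R : Type u) [Ring R]
    (hR : RegularRing R) (k : ℕ) :
    Subsingleton (KNeg 1 (MonoidAlgebra R (FreeGroup (Fin k)))) := by
  have a1 : Function.Surjective (K0.map (MonoidAlgebra.singleOneRingHom :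
      LaurentPolynomial R →+* MonoidAlgebra (LaurentPolynomial R) (FreeGroup (Fin k)))) :=
    hF (LaurentPolynomial R) (hL R hR) k
  have a2 : Function.Surjective (K0.map ((swapEquiv R (FreeGroup (Fin k)) :
      MonoidAlgebra (LaurentPolynomial R) (FreeGroup (Fin k)) →+*
        LaurentPolynomial (MonoidAlgebra R (FreeGroup (Fin k)))))) :=
    K0.surj_equiv (swapEquiv R (FreeGroup (Fin k)))
  have a3 := K0.surj_comp _ _ a2 a1
  have h1 := K0.surj_comp _ _ a3 (surj_laurent hF R hR)
  have h2 : ((swapEquiv R (FreeGroup (Fin k)) : _ →+* _).comp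
      (MonoidAlgebra.singleOneRingHom : LaurentPolynomial R →+*
        MonoidAlgebra (LaurentPolynomial R) (FreeGroup (Fin k)))).comp
      (LaurentPolynomial.C : R →+* LaurentPolynomial R) =
      (posMap (MonoidAlgebra R (FreeGroup (Fin k)))).comp (Polynomial.C.comp
        (MonoidAlgebra.singleOneRingHom : R →+* MonoidAlgebra R (FreeGroup (Fin k)))) := by
    ext1 r
    refine (swapEquiv_single R (FreeGroup (Fin k)) r).trans ?_
    exact (Polynomial.toLaurent_C _).symm
  rw [h2] at h1
  have h3 : K0Fun.polySub (MonoidAlgebra R (FreeGroup (Fin k))) = ⊤ := by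
    rw [eq_top_iff]
    rintro z -
    obtain ⟨y, hy⟩ := h1 z
    have h4 := K0Fun.hom_comp (posMap (MonoidAlgebra R (FreeGroup (Fin k))))
      (Polynomial.C.comp
        (MonoidAlgebra.singleOneRingHom : R →+* MonoidAlgebra R (FreeGroup (Fin k))))
    refine AddSubgroup.mem_sup_left ⟨K0.map (Polynomial.C.comp
        (MonoidAlgebra.singleOneRingHom : R →+* MonoidAlgebra R (FreeGroup (Fin k)))) y, ?_⟩
    rw [← hy]
    exact (DFunLike.congr_fun h4 y).symm
  show Subsingleton (K0 (LaurentPolynomial (MonoidAlgebra R (FreeGroup (Fin k)))) ⧸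
    K0Fun.polySub (MonoidAlgebra R (FreeGroup (Fin k))))
  rw [h3]
  exact QuotientAddGroup.subsingleton_quotient_top

/-- KFREE: `K_{-1}(R[F]) = 0` for regular `R` and the free group of countable rank. -/
theorem kfree (hL : LregStatement.{u}) (hF : FreeStatement.{u}) (R : Type u) [Ring R]
    (hR : RegularRing R) : Subsingleton (KNeg 1 (MonoidAlgebra R (FreeGroup ℕ))) := by
  refine subsingleton_KNeg_one fun p => ?_
  obtain ⟨k, p₀, hp⟩ := lift_free p
  exact ⟨MonoidAlgebra R (FreeGroup (Fin k)), inferInstance,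
    MonoidAlgebra.mapDomainRingHom R (iota k), p₀, hp, kfree_fin hL hF R hR k⟩

end Pool.Agent.NegK.H64
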